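import Pool.Agent.W434.BW.StmA

/-!
# Project BW: transitive terms
-/

set_option autoImplicit false

namespace Pool.Agent.W193.BW

open Pool.Agent.W434.BW

variable {Ω : Type} {ar : Ω → ℕ}

/-- the values of the term with the variable `i` in `D` -/
def Im {X ι : Type} (a : Alg ar X) (T : Tm ar ι) (i : ι) (D : Set X) : Set X :=
  {e | ∃ y : ι → X, y i ∈ D ∧ T.ev a y = e}

theorem Im_mono {X ι : Type} {a : Alg ar X} {T : Tm ar ι} {i : ι} {D D' : Set X} (h : D ⊆ D') :
    Im a T i D ⊆ Im a T i D' := by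
  rintro e ⟨y, h1, h2⟩
  exact ⟨y, h h1, h2⟩

theorem sub_Im {X ι : Type} {a : Alg ar X} (ha : Idem a) (T : Tm ar ι) (i : ι) (D : Set X) :
    D ⊆ Im a T i D := fun x hx => ⟨fun _ => x, hx, ev_idem ha T x⟩

/-- star composition -/
def star {ι κ : Type} (T : Tm ar ι) (U : Tm ar κ) : Tm ar (ι × κ) :=
  T.bind (fun i => U.bind (fun k => .var (i, k)))

theorem ev_star {X ι κ : Type} (a : Alg ar X) (T : Tm ar ι) (U : Tm ar κ) (y : ι × κ → X) :
    (star T U).ev a y = T.ev a (fun i => U.ev a (fun k => y (i, k))) := by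
  unfold star
  rw [ev_bind]
  congr 1
  funext i
  rw [ev_bind]
  rfl

theorem Im_star {X ι κ : Type} {a : Alg ar X} (ha : Idem a) (T : Tm ar ι) (U : Tm ar κ) (i : ι)
    (k : κ) (D : Set X) : Im a T i (Im a U k D) ⊆ Im a (star T U) (i, k) D := by
  classical
  rintro e ⟨y, ⟨z, hz, hzy⟩, he⟩
  refine ⟨fun p => if p.1 = i then z p.2 else y p.1, ?_, ?_⟩
  · simpa using hz
  · rw [ev_star, ← he]
    congr 1
    funext i'
    by_cases h : i' = i
    · subst h
      simp only [if_true]
      exact hzy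
    · simp only [if_neg h]
      exact ev_idem ha U (y i')

/-- one operation violated by every non closed set -/
theorem exists_list {X : Type} [Finite X] (a : Alg ar X) : ∃ l : List Ω, ∀ D : Set X,
    (∀ ω ∈ l, ∀ x : Fin (ar ω) → X, (∀ i, x i ∈ D) → a ω x ∈ D) → Sub a D := by
  classical
  have key : ∀ s : Finset (Set X), ∃ l : List Ω, ∀ D ∈ s,
      (∀ ω ∈ l, ∀ x : Fin (ar ω) → X, (∀ i, x i ∈ D) → a ω x ∈ D) → Sub a D := by
    intro s
    induction s using Finset.induction_on with
    | empty => exact ⟨[], fun D hD => absurd hD (Finset.notMem_empty D)⟩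
    | insert E s _ ih =>
      obtain ⟨l, hl⟩ := ih
      by_cases hE : Sub a E
      · refine ⟨l, fun D hD h => ?_⟩
        rcases Finset.mem_insert.1 hD with rfl | hD
        · exact hE
        · exact hl D hD h
      · unfold Pool.Agent.W434.BW.Sub at hE
        push Not at hE
        obtain ⟨ω, x, hx, hax⟩ := hE
        refine ⟨ω :: l, fun D hD h => ?_⟩
        rcases Finset.mem_insert.1 hD with rfl | hD
        · exact absurd (h ω (by simp) x hx) hax
        · exact hl D hD (fun ω' hω' => h ω' (List.mem_cons_of_mem _ hω'))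
  have : Fintype (Set X) := Fintype.ofFinite _
  obtain ⟨l, hl⟩ := key Finset.univ
  exact ⟨l, fun D => hl D (Finset.mem_univ D)⟩

/-- the composition of `u` and the operations of a list -/
theorem exists_U (u : Tm ar (Fin 3)) {X : Type} (a : Alg ar X) (ha : Idem a) (l : List Ω) :
    ∃ (κ : Type) (_ : Finite κ) (U : Tm ar κ), ∀ (k : κ) (D : Set X), Im a U k D ⊆ D →
      (∀ ω ∈ l, ∀ x : Fin (ar ω) → X, (∀ i, x i ∈ D) → a ω x ∈ D) ∧
      ∃ i : Fin 3, Im a u i D ⊆ D := by
  induction l with
  | nil => exact ⟨Fin 3, inferInstance, u, fun k D h => ⟨by simp, k, h⟩⟩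
  | cons ω l ih =>
    obtain ⟨κ, hκ, U, hU⟩ := ih
    let W : Tm ar (Fin (ar ω)) := .app ω (fun i => .var i)
    refine ⟨Fin (ar ω) × κ, inferInstance, star W U, ?_⟩
    rintro ⟨i, k⟩ D hD
    have h1 : Im a W i (Im a U k D) ⊆ D := (Im_star ha W U i k D).trans hD
    have h2 : Im a U k D ⊆ D := (sub_Im ha W i _).trans h1
    have h3 : Im a W i D ⊆ D := (Im_mono (sub_Im ha U k D)).trans h1
    obtain ⟨h4, h5⟩ := hU k D h2
    refine ⟨?_, h5⟩
    intro ω' hω'
    rcases List.mem_cons.1 hω' with h | h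
    · subst h
      intro x hx
      exact h3 ⟨x, hx i, rfl⟩
    · exact h4 ω' h

theorem wnu {u : Tm ar (Fin 3)} {X : Type} {a : Alg ar X} (h : Nice u a) (x c : X) (i j : Fin 3) :
    u.ev a (fun m => if m = i then x else c) = u.ev a (fun m => if m = j then x else c) := by
  have e0 : (fun m : Fin 3 => if m = 0 then x else c) = ![x, c, c] := by
    funext m; fin_cases m <;> rfl
  have e1 : (fun m : Fin 3 => if m = 1 then x else c) = ![c, x, c] := by
    funext m; fin_cases m <;> rfl
  have e2 : (fun m : Fin 3 => if m = 2 then x else c) = ![c, c, x] := by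
    funext m; fin_cases m <;> rfl
  obtain ⟨h1, h2⟩ := h.2 c x
  have key : ∀ i : Fin 3, u.ev a (fun m => if m = i then x else c) = u.ev a ![c, x, c] := by
    intro i
    fin_cases i
    · exact (congrArg (u.ev a) e0).trans h1
    · exact congrArg (u.ev a) e1
    · exact (congrArg (u.ev a) e2).trans h2.symm
  rw [key i, key j]

theorem tr : S_tr := by
  classical
  intro Ω ar u X _ a hn hb
  obtain ⟨l, hl⟩ := exists_list a
  obtain ⟨κ, hκ, U, hU⟩ := exists_U u a hn.1 l
  -- growth
  have hg : ∀ (k : κ) (D : Set X), D.Nonempty → D ≠ Set.univ → ¬ Im a U k D ⊆ D := by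
    intro k D hne hnu hsub
    obtain ⟨h1, i, h2⟩ := hU k D hsub
    apply hnu
    refine hb D (hl D h1) hne ?_
    let s : Tm ar (Fin 2) := u.bind (fun j => if j = i then .var 0 else .var 1)
    have hs : ∀ x y : X, s.ev a ![x, y] = u.ev a (fun m => if m = i then x else y) := by
      intro x y
      rw [ev_bind]
      congr 1
      funext m
      by_cases hm : m = i
      · simp only [if_pos hm]; rfl
      · simp only [if_neg hm]; rfl
    refine ⟨s, fun c hc x => ⟨?_, ?_⟩⟩
    · rw [hs]
      exact h2 ⟨_, by simpa using hc, rfl⟩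
    · obtain ⟨j, hj⟩ : ∃ j : Fin 3, j ≠ i := ⟨i + 1, by fin_cases i <;> decide⟩
      rw [hs, wnu hn x c i j]
      refine h2 ⟨_, ?_, rfl⟩
      simp only [if_neg hj.symm]
      exact hc
  have key : ∀ n : ℕ, ∃ (ι : Type) (_ : Finite ι) (T : Tm ar ι), ∀ (i : ι) (D : Set X),
      D.Nonempty → min (D.ncard + n) (Nat.card X) ≤ (Im a T i D).ncard := by
    intro n
    induction n with
    | zero =>
      refine ⟨Unit, inferInstance, .var (), fun i D _ => ?_⟩
      exact (min_le_left _ _).trans (Set.ncard_le_ncard (sub_Im hn.1 _ i D) (Set.toFinite _))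
    | succ n ih =>
      obtain ⟨ι, hι, T, hT⟩ := ih
      refine ⟨κ × ι, inferInstance, star U T, ?_⟩
      rintro ⟨k, i⟩ D hD
      have h1 := Im_star hn.1 U T k i D
      have h2 := hT i D hD
      have hne : (Im a T i D).Nonempty := hD.mono (sub_Im hn.1 T i D)
      have h3 : (Im a U k (Im a T i D)).ncard ≤ (Im a (star U T) (k, i) D).ncard :=
        Set.ncard_le_ncard h1 (Set.toFinite _)
      by_cases hu : Im a T i D = Set.univ
      · have h4 : Im a U k (Im a T i D) = Set.univ := by
          rw [hu]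
          exact Set.eq_univ_of_univ_subset (sub_Im hn.1 U k _)
        rw [h4, Set.ncard_univ] at h3
        exact (min_le_right _ _).trans h3
      · have h4 : Im a T i D ⊂ Im a U k (Im a T i D) :=
          ⟨sub_Im hn.1 U k _, hg k _ hne hu⟩
        have h5 := Set.ncard_lt_ncard h4 (Set.toFinite _)
        omega
  obtain ⟨ι, hι, T, hT⟩ := key (Nat.card X)
  refine ⟨ι, hι, T, fun i x e => ?_⟩
  have h1 := hT i {x} (Set.singleton_nonempty x)
  have h2 : (Im a T i {x}) = Set.univ := by
    apply Set.eq_of_subset_of_ncard_le (Set.subset_univ _) _ (Set.toFinite _)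
    rw [Set.ncard_univ]
    have : Nat.card X ≤ ({x} : Set X).ncard + Nat.card X := by omega
    rw [min_eq_right this] at h1
    exact h1
  have h3 : e ∈ Im a T i {x} := by rw [h2]; trivial
  obtain ⟨y, hy, hy2⟩ := h3
  exact ⟨y, hy, hy2⟩

end Pool.Agent.W193.BW
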